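import Pool.Agent.H10.BL.Stmts

/-!
# BL: row CHO (choice lemma)
-/

set_option autoImplicit false

namespace Pool.BL

open Finset

theorem Cho42.phi_anti {x g g' : ℝ} (h : g ≤ g') : Phi x g' ≤ Phi x g := by
  unfold Phi
  refine max_le_max le_rfl (max_le_max ?_ ?_) <;> linarith

theorem Cho42.univ3 : ∀ a b c : Fin 3, a ≠ b → a ≠ c → b ≠ c →
    (Finset.univ : Finset (Fin 3)) = {a, b, c} := by decide

theorem Cho42.split (J : ℕ) (hJ : 5 ≤ J) :
    Icc 1 J = insert 1 (insert 2 (insert 3 (insert 4 (Icc 5 J)))) := by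
  ext e
  simp only [mem_Icc, mem_insert]
  omega

theorem Cho42.sum_split (J : ℕ) (hJ : 5 ≤ J) (f : ℕ → ℝ) :
    ∑ e ∈ Icc 1 J, f e = f 1 + f 2 + f 3 + f 4 + ∑ e ∈ Icc 5 J, f e := by
  rw [Cho42.split J hJ, sum_insert (by simp), sum_insert (by simp), sum_insert (by simp),
    sum_insert (by simp)]
  ring

/-- One coordinate without a big layer of exponent at least two. -/
theorem Cho42.one (hS : S_SUB) (hH : S_LPH) (h1 : S_LP1) (hN : S_LPN) (J : ℕ) (hJ : 5 ≤ J)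
    (p : ℕ → ℝ) (t xj xk : ℝ) (hp : ∀ e, 0 ≤ p e) (ht : 0 ≤ t) (hj : 0 ≤ xj) (hk : 0 ≤ xk)
    (hsum : ∑ e ∈ Icc 1 J, p e + xj + xk ≤ 1) (hg : 1 ≤ t + ∑ e ∈ Icc 1 J, (e : ℝ) * p e)
    (a1 : 3 / 5 < ∑ e ∈ Icc 1 J, p e + xj) (a2 : 3 / 5 < ∑ e ∈ Icc 1 J, p e + xk)
    (a3 : 3 / 5 < xj + xk)
    (hlay : ∀ e ∈ Icc 2 J, p e ≤ 1 / 10 + (∑ e ∈ Icc 1 J, p e) / 2) :
    ∃ K : Finset ℕ, K ⊆ Icc 1 J ∧ ∑ e ∈ K, p e + (Phi xj (t + ∑ e ∈ K, (e : ℝ) * p e) +
      Phi xk (t + ∑ e ∈ K, (e : ℝ) * p e)) / 2 ≤ 3 / 5 := by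
  have s1 := Cho42.sum_split J hJ p
  have s2 := Cho42.sum_split J hJ (fun e => (e : ℝ) * p e)
  push_cast at s2
  set x := ∑ e ∈ Icc 1 J, p e with hx
  have hx0 : 0 ≤ x := sum_nonneg fun e _ => hp e
  have h5 : ∀ K : Finset ℕ, K ⊆ Icc 5 J → 5 * ∑ e ∈ K, p e ≤ ∑ e ∈ K, (e : ℝ) * p e := by
    intro K hK
    rw [mul_sum]
    refine sum_le_sum fun e he => mul_le_mul_of_nonneg_right ?_ (hp e)
    have := (mem_Icc.1 (hK he)).1
    exact_mod_cast this
  have hH0 : 0 ≤ ∑ e ∈ Icc 5 J, p e := sum_nonneg fun e _ => hp e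
  rcases lt_or_ge (1 / 10 + x / 2) (p 1) with hb | hb
  · refine ⟨Icc 2 J, Icc_subset_Icc (by norm_num) le_rfl, ?_⟩
    have e1 : Icc 2 J = insert 2 (insert 3 (insert 4 (Icc 5 J))) := by
      ext e
      simp only [mem_Icc, mem_insert]
      omega
    have s3 : ∑ e ∈ Icc 2 J, p e = x - p 1 := by
      rw [e1, sum_insert (by simp), sum_insert (by simp), sum_insert (by simp)]
      linarith
    have s4 : ∑ e ∈ Icc 2 J, (e : ℝ) * p e = ∑ e ∈ Icc 1 J, (e : ℝ) * p e - p 1 := by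
      rw [e1, sum_insert (by simp), sum_insert (by simp), sum_insert (by simp)]
      push_cast
      linarith
    rw [s3]
    have := hp 2
    have := hp 3
    have := hp 4
    exact h1 x xj xk (p 1) _ hx0 hj hk hsum a1 a2 a3 hb (by linarith) (by linarith)
  · rcases le_or_gt (1 / 12) (∑ e ∈ Icc 5 J, p e) with hc | hc
    · obtain ⟨K, hK, k1, k2⟩ := hS (Icc 5 J) p (1 / 12) (1 / 10 + x / 2)
        (fun e he => ⟨hp e, hlay e (mem_Icc.2 ⟨by have := (mem_Icc.1 he).1; omega,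
          (mem_Icc.1 he).2⟩)⟩) (by norm_num) (by linarith) hc
      refine ⟨K, hK.trans (Icc_subset_Icc (by norm_num) le_rfl), ?_⟩
      refine hH x xj xk _ _ hx0 hj hk hsum a1 a2 a3 k1 k2 ?_
      have := h5 K hK
      linarith
    · have m2 : (2 : ℕ) ∈ Icc 2 J := mem_Icc.2 ⟨le_rfl, by omega⟩
      have m3 : (3 : ℕ) ∈ Icc 2 J := mem_Icc.2 ⟨by norm_num, by omega⟩
      have m4 : (4 : ℕ) ∈ Icc 2 J := mem_Icc.2 ⟨by norm_num, by omega⟩
      have h6 := h5 _ (Finset.Subset.refl _)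
      have h7 := hN (p 1) (p 2) (p 3) (p 4) (∑ e ∈ Icc 5 J, p e)
        (t + ∑ e ∈ Icc 5 J, (e : ℝ) * p e) x xj xk (hp 1) (hp 2) (hp 3) (hp 4) hH0 s1 hj hk
        hsum a1 a2 a3 hb (hlay 2 m2) (hlay 3 m3) (hlay 4 m4) hc.le (by linarith) (by linarith)
      rcases h7 with h7 | h7 | h7
      · refine ⟨{4}, ?_, ?_⟩
        · intro e he
          rw [mem_singleton] at he
          exact mem_Icc.2 ⟨by omega, by omega⟩
        · rw [sum_singleton, sum_singleton]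
          push_cast
          have q1 : Phi xj (t + 4 * p 4) ≤ Phi xj (4 * p 4) := Cho42.phi_anti (by linarith)
          have q2 : Phi xk (t + 4 * p 4) ≤ Phi xk (4 * p 4) := Cho42.phi_anti (by linarith)
          linarith
      · refine ⟨insert 4 (Icc 5 J), ?_, ?_⟩
        · intro e he
          rw [mem_insert, mem_Icc] at he
          exact mem_Icc.2 ⟨by omega, by omega⟩
        · rw [sum_insert (by simp), sum_insert (by simp)]
          push_cast
          have e2 : t + (4 * p 4 + ∑ e ∈ Icc 5 J, (e : ℝ) * p e) =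
              4 * p 4 + (t + ∑ e ∈ Icc 5 J, (e : ℝ) * p e) := by ring
          rw [e2]
          exact h7
      · refine ⟨insert 2 (insert 4 (Icc 5 J)), ?_, ?_⟩
        · intro e he
          rw [mem_insert, mem_insert, mem_Icc] at he
          exact mem_Icc.2 ⟨by omega, by omega⟩
        · rw [sum_insert (by simp), sum_insert (by simp), sum_insert (by simp),
            sum_insert (by simp)]
          push_cast
          have e2 : t + (2 * p 2 + (4 * p 4 + ∑ e ∈ Icc 5 J, (e : ℝ) * p e)) =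
              2 * p 2 + 4 * p 4 + (t + ∑ e ∈ Icc 5 J, (e : ℝ) * p e) := by ring
          rw [e2, ← add_assoc (p 2)]
          exact h7

/-- **CHO.** -/
theorem cho_thm (hS : S_SUB) (hH : S_LPH) (h1 : S_LP1) (hN : S_LPN) : S_CHO := by
  intro J p t a b c hJ hab hac hbc hp ht hsum hg
  by_contra hcon
  push Not at hcon
  obtain ⟨A, B, C⟩ := hcon
  rw [Cho42.univ3 a b c hab hac hbc, sum_insert (by simp [hab, hac]), sum_insert (by simp [hbc]),
    sum_singleton] at hsum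
  have hx : ∀ l, 0 ≤ ∑ e ∈ Icc 1 J, p l e := fun l => sum_nonneg fun e _ => hp l e
  have A1 := A a b hab
  have A2 := A a c hac
  have A3 := A b c hbc
  by_cases c1 : ∀ e ∈ Icc 2 J, p b e ≤ 1 / 10 + (∑ e ∈ Icc 1 J, p b e) / 2
  · obtain ⟨K, hK, hv⟩ := Cho42.one hS hH h1 hN J hJ (p b) (t b) (∑ e ∈ Icc 1 J, p a e)
      (∑ e ∈ Icc 1 J, p c e) (hp b) (ht b) (hx a) (hx c) (by linarith) (hg b hab.symm)
      (by linarith) A3 A2 c1
    exact absurd hv (not_le.2 (C b a c K hab.symm hab.symm hbc hac hK))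
  · by_cases c2 : ∀ e ∈ Icc 2 J, p c e ≤ 1 / 10 + (∑ e ∈ Icc 1 J, p c e) / 2
    · obtain ⟨K, hK, hv⟩ := Cho42.one hS hH h1 hN J hJ (p c) (t c) (∑ e ∈ Icc 1 J, p a e)
        (∑ e ∈ Icc 1 J, p b e) (hp c) (ht c) (hx a) (hx b) (by linarith) (hg c hac.symm)
        (by linarith) (by linarith) A1 c2
      exact absurd hv (not_le.2 (C c a b K hac.symm hac.symm hbc.symm hab hK))
    · push Not at c1 c2
      obtain ⟨e, he, e1⟩ := c1
      obtain ⟨f, hf, f1⟩ := c2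
      have := B e f he hf
      linarith

end Pool.BL
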